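import Pool.Agent.Helper14.T3.StL

/-!
# Project T3, module Edgi: exact value of the symbol on an edge
-/

set_option autoImplicit false

namespace Pool.Agent.Helper34.T3

open Pool.Agent.Helper14.T3 Pool.Agent.Helper14.W3 Pool.Agent.Helper78.W3

private lemma sgn_sq {v : ℤ} (hv : v ≠ 0) : v.sign * v.sign = 1 := by
  rcases lt_or_gt_of_ne hv with h | h
  · rw [Int.sign_eq_neg_one_of_neg h]; norm_num
  · rw [Int.sign_eq_one_of_pos h]; norm_num

private lemma cop_abs {u v : ℤ} (hv : v ≠ 0) (h : IsCoprime u v) :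
    IsCoprime (u * v.sign) ((v.natAbs : ℕ) : ℤ) := by
  have e : ((v.natAbs : ℕ) : ℤ) = v * v.sign := (Int.mul_sign_self v).symm
  rw [e]
  obtain ⟨x, y, hxy⟩ := h
  have hs := sgn_sq hv
  exact ⟨x * v.sign, y * v.sign, by linear_combination (x * u + y * v) * hs + hxy⟩

private lemma dvd_abs {v n : ℤ} (h : v ∣ n) : ((v.natAbs : ℕ) : ℤ) ∣ n := by
  rw [Int.natAbs_dvd]; exact h

private lemma pos_abs {v : ℤ} (hv : v ≠ 0) : 1 ≤ v.natAbs := Int.natAbs_pos.2 hv

/-- `IZ` is odd in the first argument -/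
private lemma IZ_neg (hDsb : Dsb) {u v : ℤ} (hv : v ≠ 0) (h : IsCoprime u v)
    (h3 : IsCoprime 3 v) : IZ (-u) v = -IZ u v := by
  unfold IZ
  have h3u : IsCoprime (3 * (u * v.sign)) ((v.natAbs : ℕ) : ℤ) := by
    have := cop_abs hv (IsCoprime.mul_left h3 h)
    rwa [mul_assoc] at this
  have b1 := (hDsb (u * v.sign) v.natAbs (pos_abs hv)).2.1 (cop_abs hv h)
  have b2 := (hDsb (3 * (u * v.sign)) v.natAbs (pos_abs hv)).2.1 h3u
  have e1 : -u * v.sign = -(u * v.sign) := by ring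
  have e2 : 3 * (-(u * v.sign)) = -(3 * (u * v.sign)) := by ring
  rw [e1, e2]
  linarith

private lemma IZ_one (u : ℤ) : IZ u 1 = 0 := by
  unfold IZ dS
  simp

private lemma IZ_negone (u : ℤ) : IZ u (-1) = 0 := by
  unfold IZ dS
  simp

private lemma nz {a Q x : ℤ} (h : a * Q + 3 * x = 1) : Q ≠ 0 := by
  rintro rfl
  omega

/-- the case `c > 0` -/
private lemma main (hDsb : Dsb) (hDr1 : Dr1) (a P Q : ℤ) (c : ℕ) (hc : 1 ≤ c)
    (h : a * Q - 3 * (c : ℤ) * P = 1) :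
    6 * (IZ c a * Q ^ 2 - IZ P Q * a ^ 2) = a * Q * (a - Q) * (P + c) := by
  have hQ : Q ≠ 0 := nz (x := -(c : ℤ) * P) (a := a) (by linear_combination h)
  have hQc : IsCoprime (c : ℤ) Q := ⟨-3 * P, a, by linear_combination h⟩
  have hQ3 : IsCoprime (3 : ℤ) Q := ⟨-(c : ℤ) * P, a, by linear_combination h⟩
  have hs := sgn_sq hQ
  -- (i)
  have hi : IZ P Q = IZ c Q := by
    unfold IZ
    have c1 := (hDsb (P * Q.sign) Q.natAbs (pos_abs hQ)).2.2 (-(3 * ((c : ℤ) * Q.sign)))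
      (dvd_abs ⟨-a, by linear_combination -3 * (c : ℤ) * P * hs + h⟩)
    have c2 := (hDsb (3 * (P * Q.sign)) Q.natAbs (pos_abs hQ)).2.2 (-((c : ℤ) * Q.sign))
      (dvd_abs ⟨-a, by linear_combination -3 * (c : ℤ) * P * hs + h⟩)
    have h3u : IsCoprime (3 * ((c : ℤ) * Q.sign)) ((Q.natAbs : ℕ) : ℤ) := by
      have := cop_abs hQ (IsCoprime.mul_left hQ3 hQc)
      rwa [mul_assoc] at this
    have b1 := (hDsb ((c : ℤ) * Q.sign) Q.natAbs (pos_abs hQ)).2.1 (cop_abs hQ hQc)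
    have b2 := (hDsb (3 * ((c : ℤ) * Q.sign)) Q.natAbs (pos_abs hQ)).2.1 h3u
    rw [c1, c2]
    linarith
  -- (ii)
  have r1 := hDr1 a c hc ⟨Q, -P, by linear_combination h⟩
  have r2 := hDr1 Q c hc ⟨a, -P, by linear_combination h⟩
  have d1 := (hDsb a c hc).2.2 Q ⟨3 * P, by linear_combination h⟩
  have d2 := (hDsb a (3 * c) (by omega)).2.2 Q ⟨P, by push_cast; linear_combination h⟩
  rw [← d1, ← d2] at r2
  rw [hi]
  have hc0 : (3 * (c : ℤ) ^ 2) ≠ 0 := by positivity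
  apply mul_left_cancel₀ hc0
  linear_combination Q ^ 2 * r1 - a ^ 2 * r2 + a * (c : ℤ) * Q * (a - Q) * h

/-- EDGI. -/
theorem hEdgi (hDsb : Dsb) (hDr1 : Dr1) : Edgi := by
  intro a c P Q h
  rcases lt_trichotomy c 0 with hc | hc | hc
  · -- `(c, P) ↦ (-c, -P)`
    have hQ : Q ≠ 0 := nz (x := -c * P) (a := a) (by linear_combination h)
    have ha : a ≠ 0 := nz (x := -c * P) (a := Q) (by linear_combination h)
    have h' : a * Q - 3 * (((-c).toNat : ℕ) : ℤ) * (-P) = 1 := by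
      rw [Int.toNat_of_nonneg (by omega)]
      linear_combination h
    have m := main hDsb hDr1 a (-P) Q (-c).toNat (by omega) h'
    rw [Int.toNat_of_nonneg (by omega : 0 ≤ -c)] at m
    rw [IZ_neg hDsb ha ⟨-3 * P, Q, by linear_combination h⟩ ⟨-c * P, Q, by linear_combination h⟩,
      IZ_neg hDsb hQ ⟨-3 * c, a, by linear_combination h⟩ ⟨-c * P, a, by linear_combination h⟩] at m
    linear_combination -m
  · subst hc
    have h1 : a * Q = 1 := by linear_combination h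
    rcases Int.eq_one_or_neg_one_of_mul_eq_one' h1 with ⟨rfl, rfl⟩ | ⟨rfl, rfl⟩
    · rw [IZ_one, IZ_one]; ring
    · rw [IZ_negone, IZ_negone]; ring
  · have h' : a * Q - 3 * ((c.toNat : ℕ) : ℤ) * P = 1 := by
      rw [Int.toNat_of_nonneg (by omega)]
      exact h
    have m := main hDsb hDr1 a P Q c.toNat (by omega) h'
    rwa [Int.toNat_of_nonneg (by omega : 0 ≤ c)] at m

end Pool.Agent.Helper34.T3
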